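import Pool.Agent.H45.Trial

open MeasureTheory Set Filter Topology Pool.Agent.H45.Trial

theorem Pool.Agent.Results.MP_758450_pr.Critical.result :
    ∃ p : ℕ → ℝ, (∀ i, 1 / 8 ≤ p i ∧ p i ≤ 7 / 8) ∧
      ∀ (μ : Measure (ℕ → ℝ)), μ = (Measure.infinitePi fun _ : ℕ => volume.restrict (Icc (0 : ℝ) 1)) →
      ((∀ x, (∀ᵐ u ∂μ, (succSet p x u).Finite) ∧
          MemLp (fun u => ((succSet p x u).ncard : ℝ)) 2 μ) ∧
        Tendsto (fun x : ℕ => (∫ u, ((succSet p x u).ncard : ℝ) ∂μ) / x) atTop (𝓝 1) ∧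
        Tendsto (fun x : ℕ => 2 * (∫ u, (((succSet p x u).ncard : ℝ) - x) ∂μ) /
          ((∫ u, (((succSet p x u).ncard : ℝ) - x) ^ 2 ∂μ) / x)) atTop (𝓝 1)) ∧
      ∀ X : (ℕ → ℝ) → ℕ → ℤ, (∀ u, X u 0 = 0) →
        (∀ u n, X u (n + 1) = X u n + if u n < p
          ((Finset.range n).filter fun m => X u m = X u n).card then 1 else -1) →
        ∀ᵐ u ∂μ, Tendsto (X u) atTop atTop := by
  refine ⟨fun i => Pool.Agent.H45.ERW.pp (i + 1), fun i => ?_, ?_⟩
  · have := Pool.Agent.H45.ERW.pp_mem (i + 1)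
    constructor <;> linarith
  rintro μ rfl
  refine ⟨⟨fun x => ⟨ae_fin x, memLp_U x⟩, mu_lim, ?_⟩, fun X h0 h1 => ?_⟩
  · have := (rho_lim.const_mul 2).div nu_lim (by norm_num)
    rw [show (2 : ℝ) * 1 / 2 = 1 by norm_num] at this
    exact this
  · filter_upwards [Pool.Agent.H45.ERW.right_det] with u hu
    have : X u = fun n => (Pool.Agent.H45.ERW.st (fun _ => Pool.Agent.H45.ERW.pp) u n).1 := by
      funext n
      refine Pool.Agent.H45.ERW.st_unique _ u (X u) (h0 u) (fun n => ?_) n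
      rw [h1, Finset.range_add_one, Finset.filter_insert, if_pos rfl,
        Finset.card_insert_of_notMem (by simp)]
    rwa [this]
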